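import Pool.Agent.H492.DG.Core6

/-! MP_ec2393_nt: `n` elements of distinct odd weights `≥ 3`, `≥ n - 1` of the double shuffle Lie algebra `dm`,
or only of `Lie[x₀, x₁]`, which are not zero in depth one, freely generate a free Lie algebra under the Ihara
bracket, unless the weights `3, 5, 7, 9` are among them (then `n = 4` and the weights are `3, 5, 7, 9`). In
particular any four such elements, one of weight `3`, are free if the weights are not `3, 5, 7, 9`. For these
weights the claim fails in `Lie[x₀, x₁]`: the elements `(ad x₀)^(2b) x₁` satisfy `{f₁, f₄} = 3 {f₂, f₃}` (Ihara,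
Takao).

Proof. Let `θ` delete the letters `x₀` at the end of the words, so that `θ f ∈ ℚ⟨y₀, y₁, …⟩` with
`y_k = x₀^k x₁`. The operator `g ↦ f g + D_f g` of `f` becomes `g ↦ g θ(f) + E_f g` with a derivation `E_f` of
`ℚ⟨y₀, y₁, …⟩`. Let `m + 1` be the smallest weight. If `n ≤ m + 1`, a linear change of the generators gives
elements `F_l`, `l < n`, with `θ F_l = y_l + …`, and the leading parts of their operators are jointly injective:
those of `F_l`, `l < m`, are the multiplications by `y_l` from the right and that of `F_m` is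
`g ↦ g y_m + c δ g` with the derivation `δ` of `(ad x₀)^m x₁` and `0 < c ≤ 2^(-m)`.

Let `n = m + 2`. Now there are `F_0, …, F_m` as above whose leading parts are the multiplications by `y_l`, and
`G` of the form `(ad x₀)^m x₁ + …` with `θ G = y_0 + g₁ y_{m+1} + …` in a suitable sense, whose leading part is
`δ`. The element `{G, F_0} - g₁ {G, F_1} + (g₁/2) ∑_j (-1)^(j-1) binom(m+1, j) {F_j, F_{m+1-j}}` has as leading
part the multiplication by `a₀ [y_0, y_{m+2}] + a₁ [y_1, y_{m+1}] + …` from the right, and the words in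
`F_0, …, F_m, G` and this element which avoid `G F_0` span the algebra generated by the operators. They are
linearly independent if `m a₀ + a₁ ≠ 0`. For the weights `m + 1 < d_1 + 1 < … < d_{m+1} + 1` this condition says
`2 ∑ d_j - m² ≠ (m + 2) ∏ (d_j - m) / (m + 1)!`. As the `d_j` are even, the left hand side is smaller than the
right hand side, except for `m = 2` and the weights `3, 5, 7, 9`, where both are `32`. -/

set_option autoImplicit false

namespace Pool.Agent.Results.MP_ec2393_nt.FreeExceptWeights3579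

open Pool.Agent.H777R4.DM

attribute [local instance 100] LieRing.ofAssociativeRing

/-- (1) Let `w₁, …, wₙ` be distinct odd numbers with `wᵢ ≥ 3` and `n ≤ wᵢ + 1`, not containing all of
`3, 5, 7, 9`, and let `ψᵢ ∈ Lie[x₀, x₁]` be homogeneous of weight `wᵢ`, with a nonzero coefficient at
`x₀^(wᵢ - 1) x₁`.  Then there is an injective linear map `φ` on `ℚ⟨X₁, …, Xₙ⟩` with `φ Xᵢ = ψᵢ` that carries the
bracket `[P, Q] = PQ - QP` of the free Lie algebra on `X₁, …, Xₙ` to the Ihara bracket.

(2) For `n = 4` and the weights `3, 5, 7, 9` there are such elements with `{ψ₁, ψ₄} = 3 {ψ₂, ψ₃}`. -/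
theorem result :
    (∀ (n : ℕ) (w : Fin n → ℕ), Function.Injective w → (∀ i, Odd (w i)) → (∀ i, 3 ≤ w i) →
      (∀ i, n ≤ w i + 1) → ¬ ({3, 5, 7, 9} : Set ℕ) ⊆ Set.range w →
      ∀ ψ : Fin n → A, (∀ i, ψ i ∈ LieX) → (∀ i u, co (ψ i) u ≠ 0 → u.length = w i) →
      (∀ i, co (ψ i) (List.replicate (w i - 1) 0 ++ [1]) ≠ 0) →
      ∃ φ : Al (Fin n) →ₗ[ℚ] A, Function.Injective φ ∧ (∀ i, φ (wd [i]) = ψ i) ∧
        ∀ P ∈ LieN n, ∀ Q ∈ LieN n, φ (P * Q - Q * P) = ihara (φ P) (φ Q)) ∧
    (∃ ψ : Fin 4 → A, (∀ i, ψ i ∈ LieX) ∧ (∀ i u, co (ψ i) u ≠ 0 → u.length = 2 * i.val + 3) ∧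
      (∀ i, co (ψ i) (List.replicate (2 * i.val + 2) 0 ++ [1]) ≠ 0) ∧
      ihara (ψ 0) (ψ 3) = (3 : ℚ) • ihara (ψ 1) (ψ 2)) := by
  refine ⟨fun n w hw ho h3 hn hex ψ hL hhom hne => ⟨PhiN ψ,
    Pool.Agent.H492.DG.crit_weights n w hw ho h3 hn hex ψ hL hhom hne,
    (Pool.Agent.H358R3.DM.taskFinalN n ψ).1, (Pool.Agent.H358R3.DM.taskFinalN n ψ).2⟩,
    fun i => adp (2 * i.val + 2), fun i => adp_mem _, fun i u hu => (adp_words _ u hu).1, fun i => ?_, ?_⟩
  · have h := Pool.Agent.H492.DG.co_adp_wordX (2 * i.val + 2) [2 * i.val + 2]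
    rw [if_pos rfl, Pool.Agent.H492.DG.wordX_one] at h
    rw [h]
    exact one_ne_zero
  · exact Pool.Agent.H492.DG.rel12

end Pool.Agent.Results.MP_ec2393_nt.FreeExceptWeights3579
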