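import Pool.Agent.H492.DG.ModPoly

/-! MP_ec2393_nt: a criterion modulo a prime number for the freeness of elements of the double shuffle Lie algebra
`dm`, or only of `Lie[x₀, x₁]`, which are not zero in depth one.

Let `W` be a set of weights. Suppose that for a prime number `p` the root `-1` of each nonzero polynomial over
`𝔽_p` with exponents in `{w - 1 : w ∈ W}` has a smaller multiplicity than the root `0`. Then elements `ψ_w`,
`w ∈ W`, of `Lie[x₀, x₁]`, `ψ_w` homogeneous of weight `w` with a nonzero coefficient at `x₀^(w-1) x₁`, freely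
generate a free Lie algebra under the Ihara bracket. (For odd weights the roots `-1` and `1` have the same
multiplicity.) The set `W` is finite here, but its size is not bounded by the weights, so the criterion can be
applied to infinite sets of weights. The prime number `p` may depend on the finite subset.

Examples. 1. The weights `2 b + 1` with `b` in a set of numbers with different `p`-adic valuations, `p` an odd
prime number. For `f = ∑ c_b t^(2b) = g^(p^v)`, `v` the smallest valuation, the derivative of `g` is a monomial, so
the nonzero roots of `f` have multiplicity at most `p^v`, which is less than the exponents `2b`. 2. The weights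
`p^e + c + 1`, `e ≥ 0`, `c ≥ 1` fixed. 3. If `|W| < w` for all `w ∈ W` the condition is satisfied for large `p`,
since a polynomial with `|W|` terms has no root `≠ 0` of multiplicity `|W|`, in characteristic `0` or `> deg`.

Proof. Let `θ` delete the letters `x₀` at the end of the words, so that `θ f ∈ ℚ⟨y₀, y₁, …⟩` with
`y_k = x₀^k x₁`. The operator `g ↦ f g + D_f g` of `f` becomes `g ↦ g θ(f) + E_f g` with a derivation `E_f` of
`ℚ⟨y₀, y₁, …⟩`; for `f = (ad x₀)^d x₁` we have `θ f = ∑ (-1)^(d-k) binom(d, k) y_k`, and `E_f` is homogeneous of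
degree `d` if `y_k` has degree `k`, with integral coefficients. Let `g_w` be elements of `ℤ⟨y₀, y₁, …⟩`, not all
divisible by `p`. For a word `v` let `h_v = ∑ (g_w | v) t^(w-1)` modulo `p`, and `k_v` the multiplicity of the root
`-1`. Take a word with `h_v ≠ 0` for which the degree of `v` plus `k_v` is minimal. Then the coefficient of
`∑ (g_w θ(f_w) + E_{f_w} g_w)` at `v y_k`, `k = k_v`, is not divisible by `p`, as the derivations do not
contribute. So the operators of the `f_w` are jointly injective. -/

set_option autoImplicit false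

namespace Pool.Agent.Results.MP_ec2393_nt.ModuloPrimeCriterion

open Pool.Agent.H777R4.DM

attribute [local instance 100] LieRing.ofAssociativeRing

/-- Let `w₁, …, wₙ` be distinct natural numbers and `p` a prime number. Suppose that for each nonzero polynomial `h`
over `ℤ/p` whose exponents are among the numbers `wᵢ - 1` the root `-1` has smaller multiplicity than the root `0`.
Let `ψᵢ ∈ Lie[x₀, x₁]` be homogeneous of weight `wᵢ`, with a nonzero coefficient at `x₀^(wᵢ - 1) x₁`.  Then there
is an injective linear map `φ` on `ℚ⟨X₁, …, Xₙ⟩` with `φ Xᵢ = ψᵢ` that carries the bracket `[P, Q] = PQ - QP` of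
the free Lie algebra on `X₁, …, Xₙ` to the Ihara bracket. -/
theorem result (p : ℕ) (hp : p.Prime) (n : ℕ) (w : Fin n → ℕ) (hw : Function.Injective w)
    (hcrit : ∀ h : Polynomial (ZMod p), h ≠ 0 → (∀ m ∈ h.support, ∃ i, w i = m + 1) →
      h.rootMultiplicity (-1) < h.rootMultiplicity 0)
    (ψ : Fin n → A) (hL : ∀ i, ψ i ∈ LieX) (hhom : ∀ i u, co (ψ i) u ≠ 0 → u.length = w i)
    (hne : ∀ i, co (ψ i) (List.replicate (w i - 1) 0 ++ [1]) ≠ 0) :
    ∃ φ : Al (Fin n) →ₗ[ℚ] A, Function.Injective φ ∧ (∀ i, φ (wd [i]) = ψ i) ∧
      ∀ P ∈ LieN n, ∀ Q ∈ LieN n, φ (P * Q - Q * P) = ihara (φ P) (φ Q) :=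
  ⟨PhiN ψ, Pool.Agent.H492.DG.crit_poly p hp n w hw hcrit ψ hL hhom hne,
    (Pool.Agent.H358R3.DM.taskFinalN n ψ).1, (Pool.Agent.H358R3.DM.taskFinalN n ψ).2⟩

end Pool.Agent.Results.MP_ec2393_nt.ModuloPrimeCriterion
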